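import Pool.Agent.N728.QU.Def
import Pool.Agent.N97.QG.B4P

set_option autoImplicit false

/-! # Project QU: subtask B4P (slowly varying weights, primes, uniformly in the constant term, both signs).

After `Pool/Agent/N97/QG/B4P.lean` and `Pool/Agent/N49/QL/B4.lean`. -/

namespace Pool.Agent.N61.QU

open Finset Pool.Agent.N728.QL Pool.Agent.N728.QG Pool.Agent.N728.QU Pool.Agent.N49.QL

noncomputable section

/-! ### One value of `u` -/

/-- the values `n = σ u v + c` -/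
lemma bij {σ c lo hi : ℤ} {q u v0 V r B : ℕ} (hσ : σ = 1 ∨ σ = -1) (hu : 1 ≤ u) (hB : 1 ≤ B)
    (hH : ∀ v : ℤ, (1 ≤ v ∧ v ≤ V) ↔ (lo ≤ σ * ((u : ℤ) * v) + c ∧ σ * ((u : ℤ) * v) + c ≤ hi))
    (hr : (r : ℤ) ≡ σ * ((u : ℤ) * v0) + c [ZMOD ((u * q : ℕ) : ℤ)]) (f : ℕ → ℝ) :
    ∑ v ∈ (Icc 1 V).filter (fun v => v ≡ v0 [MOD q]),
      (if (B : ℤ) ≤ σ * ((u : ℤ) * v) + c then f (σ * ((u : ℤ) * v) + c).toNat else 0) =
    ∑ n ∈ (Icc (max B lo.toNat) hi.toNat).filter (fun n => n ≡ r [MOD (u * q)]), f n := by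
  rw [← Finset.sum_filter]
  have huz : (0 : ℤ) < u := by exact_mod_cast hu
  have hσ2 : σ * σ = 1 := by rcases hσ with h | h <;> rw [h] <;> norm_num
  have hσ0 : σ ≠ 0 := by rcases hσ with h | h <;> rw [h] <;> norm_num
  refine Finset.sum_bij (fun (v : ℕ) _ => (σ * ((u : ℤ) * v) + c).toNat) ?_ ?_ ?_ ?_
  · intro v hv
    rw [Finset.mem_filter, Finset.mem_filter, Finset.mem_Icc] at hv
    obtain ⟨⟨⟨hv1, hvV⟩, hvq⟩, hvB⟩ := hv
    have hcast : (((σ * ((u : ℤ) * v) + c).toNat : ℕ) : ℤ) = σ * ((u : ℤ) * v) + c :=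
      Int.toNat_of_nonneg (by omega)
    obtain ⟨h1, h2⟩ := (hH v).mp ⟨by exact_mod_cast hv1, by exact_mod_cast hvV⟩
    rw [Finset.mem_filter, Finset.mem_Icc]
    refine ⟨⟨?_, ?_⟩, ?_⟩
    · rw [max_le_iff]
      constructor
      · omega
      · exact Int.toNat_le_toNat h1
    · exact Int.toNat_le_toNat h2
    · rw [← Int.natCast_modEq_iff, hcast]
      refine Int.ModEq.trans ?_ hr.symm
      apply Int.ModEq.add_right
      apply Int.ModEq.mul_left
      push_cast
      apply Int.ModEq.mul_left'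
      exact Int.natCast_modEq_iff.mpr hvq
  · intro v hv v' hv' heq
    rw [Finset.mem_filter, Finset.mem_filter, Finset.mem_Icc] at hv hv'
    have e1 : (((σ * ((u : ℤ) * v) + c).toNat : ℕ) : ℤ) = σ * ((u : ℤ) * v) + c :=
      Int.toNat_of_nonneg (by omega)
    have e2 : (((σ * ((u : ℤ) * v') + c).toNat : ℕ) : ℤ) = σ * ((u : ℤ) * v') + c :=
      Int.toNat_of_nonneg (by omega)
    have e3 : σ * ((u : ℤ) * v) + c = σ * ((u : ℤ) * v') + c := by
      rw [← e1, ← e2]; exact_mod_cast heq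
    have e4 : σ * ((u : ℤ) * v) = σ * ((u : ℤ) * v') := by omega
    have e5 := mul_left_cancel₀ huz.ne' (mul_left_cancel₀ hσ0 e4)
    exact_mod_cast e5
  · intro p hp
    rw [Finset.mem_filter, Finset.mem_Icc, max_le_iff] at hp
    obtain ⟨⟨⟨hpB, hplo⟩, hphi⟩, hpr⟩ := hp
    have h3 : (p : ℤ) ≡ σ * ((u : ℤ) * v0) + c [ZMOD ((u * q : ℕ) : ℤ)] :=
      (Int.natCast_modEq_iff.mpr hpr).trans hr
    obtain ⟨k, hk⟩ := h3.symm.dvd
    push_cast at hk
    have h4 : (p : ℤ) = σ * ((u : ℤ) * (v0 + σ * (q * k))) + c := by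
      have : σ * ((u : ℤ) * (v0 + σ * (q * k))) = σ * (u * v0) + (σ * σ) * (u * q * k) := by ring
      rw [this, hσ2]
      linarith
    have hlo : lo ≤ (p : ℤ) := by omega
    have hhi : (p : ℤ) ≤ hi := by omega
    obtain ⟨h5, h6⟩ := (hH (v0 + σ * (q * k))).mpr ⟨by rw [← h4]; exact hlo, by rw [← h4]; exact hhi⟩
    have h7 : ((((v0 : ℤ) + σ * (q * k)).toNat : ℕ) : ℤ) = v0 + σ * (q * k) :=
      Int.toNat_of_nonneg (by omega)
    refine ⟨((v0 : ℤ) + σ * (q * k)).toNat, ?_, ?_⟩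
    · rw [Finset.mem_filter, Finset.mem_filter, Finset.mem_Icc, h7, ← h4]
      refine ⟨⟨⟨by omega, by omega⟩, ?_⟩, by exact_mod_cast hpB⟩
      rw [← Int.natCast_modEq_iff, h7]
      exact (Int.modEq_iff_dvd.mpr ⟨-(σ * k), by ring⟩)
    · show (σ * ((u : ℤ) * ((((v0 : ℤ) + σ * (q * k)).toNat : ℕ) : ℤ)) + c).toNat = p
      rw [h7, ← h4]
      simp
  · intro v hv
    rfl

lemma W_pos (z : ℕ) : 0 < (VW 0 z)⁻¹ := inv_pos.mpr (Pool.Agent.N728.QL.VW_pos 0 z)

/-- the sum of `log p - W (1 + hh)` up to `h` -/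
lemma F_bound {q z u r : ℕ} (hu : 1 ≤ u) (hq : 1 ≤ q) (hPP : PP 0 z ∣ q)
    (hqz : ∀ p : ℕ, p.Prime → p ∣ q → p ≤ z) (h : ℕ) :
    |∑ n ∈ (Icc 1 h).filter (fun n => n ≡ r [MOD (u * q)]), ((if n.Prime then Real.log n else 0) -
      (VW 0 z)⁻¹ * (1 + hh z u))| ≤
     |th h (u * q) r - (h : ℝ) / Nat.totient (u * q)| + (VW 0 z)⁻¹ * (1 + hh z u) := by
  have hW := W_pos z
  have hh0 := hh_nonneg z u
  have hW1 : 0 < (VW 0 z)⁻¹ * (1 + hh z u) := by positivity
  have e3 := main_term hq hu hPP hqz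
  set W1 := (VW 0 z)⁻¹ * (1 + hh z u) with hW1def
  rw [Finset.sum_sub_distrib, Finset.sum_const, nsmul_eq_mul]
  have e1 : ∑ n ∈ (Icc 1 h).filter (fun n => n ≡ r [MOD (u * q)]), (if n.Prime then Real.log n else 0) =
      th h (u * q) r := by
    unfold th
    rw [← Finset.sum_filter, Finset.filter_filter]
    apply Finset.sum_congr
    · ext n
      rw [Finset.mem_filter, Finset.mem_filter]
      tauto
    · intros; rfl
  have e2 := count_class (q := u * q) (Nat.mul_pos hu hq) h r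
  rw [e1]
  set N := (((Icc 1 h).filter (fun n => n ≡ r [MOD (u * q)])).card : ℝ) with hN
  have huq : (0 : ℝ) < ((u * q : ℕ) : ℝ) := by exact_mod_cast Nat.mul_pos hu hq
  have e4 : (h : ℝ) / Nat.totient (u * q) = h / ((u * q : ℕ) : ℝ) * W1 := by
    rw [← e3]
    have hφ : (0 : ℝ) < (Nat.totient (u * q) : ℝ) := by
      exact_mod_cast Nat.totient_pos.mpr (Nat.mul_pos hu hq)
    field_simp
  have e5 : th h (u * q) r - N * W1 = (th h (u * q) r - (h : ℝ) / Nat.totient (u * q)) -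
      (N - h / ((u * q : ℕ) : ℝ)) * W1 := by
    rw [e4]; ring
  rw [e5]
  refine (abs_sub _ _).trans (add_le_add le_rfl ?_)
  rw [abs_mul, abs_of_pos hW1]
  calc |N - h / ((u * q : ℕ) : ℝ)| * W1 ≤ 1 * W1 := mul_le_mul_of_nonneg_right e2 hW1.le
    _ = W1 := one_mul _

lemma Icc_bound (g : ℕ → ℝ) (P : ℕ → Prop) [DecidablePred P] (a b x : ℕ) (E : ℝ) (ha : 1 ≤ a) (hb : b ≤ x)
    (hE : 0 ≤ E) (h : ∀ y, y ≤ x → |∑ n ∈ (Icc 1 y).filter P, g n| ≤ E) :
    |∑ n ∈ (Icc a b).filter P, g n| ≤ 2 * E := by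
  by_cases hab : a ≤ b
  swap
  · rw [Finset.Icc_eq_empty hab]
    simp [hE]
  have hI : (Icc 1 b).filter P = (Icc 1 (a - 1)).filter P ∪ (Icc a b).filter P := by
    rw [← Finset.filter_union]
    congr 1
    ext n
    rw [Finset.mem_union, Finset.mem_Icc, Finset.mem_Icc, Finset.mem_Icc]
    omega
  have hd : Disjoint ((Icc 1 (a - 1)).filter P) ((Icc a b).filter P) := by
    rw [Finset.disjoint_left]
    intro n hn hn'
    rw [Finset.mem_filter, Finset.mem_Icc] at hn hn'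
    omega
  have h1 := h b hb
  have h2 := h (a - 1) (by omega)
  rw [hI, Finset.sum_union hd] at h1
  rw [abs_le] at h1 h2 ⊢
  constructor <;> linarith

lemma Rg_class' {σ c : ℤ} {z q u v u0 v0 : ℕ} (hPP : PP 0 z ∣ q) (hu : u ≡ u0 [MOD q]) (hv : v ≡ v0 [MOD q]) :
    Rg 0 z (σ * ((u : ℤ) * v) + c) ↔ Rg 0 z (σ * ((u0 : ℤ) * v0) + c) := by
  have key : ∀ p : ℕ, p.Prime → p ≤ z →
      ((p : ℤ) ∣ σ * ((u : ℤ) * v) + c ↔ (p : ℤ) ∣ σ * ((u0 : ℤ) * v0) + c) := by
    intro p hp hpz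
    have hpq : p ∣ q := (prime_dvd_PP hp hpz).trans hPP
    apply dvd_iff_dvd_of_dvd_sub
    have h1 : (u : ℤ) ≡ u0 [ZMOD p] := Int.natCast_modEq_iff.mpr (hu.of_dvd hpq)
    have h2 : (v : ℤ) ≡ v0 [ZMOD p] := Int.natCast_modEq_iff.mpr (hv.of_dvd hpq)
    have h3 : σ * ((u : ℤ) * v) + c ≡ σ * ((u0 : ℤ) * v0) + c [ZMOD p] := ((h1.mul h2).mul_left σ).add_right c
    exact h3.symm.dvd
  unfold Rg
  constructor
  · intro h p hp h0 hpz hd
    exact h p hp h0 hpz ((key p hp hpz).mpr hd)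
  · intro h p hp h0 hpz hd
    exact h p hp h0 hpz ((key p hp hpz).mp hd)

/-- the residue -/
lemma exists_res' {σ c : ℤ} {z q u u0 v0 : ℕ} (hu : 1 ≤ u) (hq : 1 ≤ q)
    (hPP : PP 0 z ∣ q) (hqz : ∀ p : ℕ, p.Prime → p ∣ q → p ≤ z) (huu : u ≡ u0 [MOD q])
    (hR : Rg 0 z (σ * ((u0 : ℤ) * v0) + c)) (hgc : ∀ p : ℕ, p.Prime → z < p → p ∣ u → ¬ (p : ℤ) ∣ c) :
    ∃ r : ℕ, (r : ℤ) ≡ σ * ((u : ℤ) * v0) + c [ZMOD ((u * q : ℕ) : ℤ)] ∧ Nat.Coprime r (u * q) := by
  have hm : (0 : ℤ) < ((u * q : ℕ) : ℤ) := by exact_mod_cast Nat.mul_pos hu hq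
  refine ⟨((σ * ((u : ℤ) * v0) + c) % ((u * q : ℕ) : ℤ)).toNat, ?_, ?_⟩
  · rw [Int.toNat_of_nonneg (Int.emod_nonneg _ hm.ne')]
    exact Int.mod_modEq _ _
  · apply Nat.coprime_of_dvd
    intro p hp hpr hpm
    have h1 : (((((σ * ((u : ℤ) * v0) + c) % ((u * q : ℕ) : ℤ)).toNat : ℕ)) : ℤ) =
        (σ * ((u : ℤ) * v0) + c) % ((u * q : ℕ) : ℤ) := Int.toNat_of_nonneg (Int.emod_nonneg _ hm.ne')
    have h2 : (p : ℤ) ∣ (σ * ((u : ℤ) * v0) + c) % ((u * q : ℕ) : ℤ) := by
      rw [← h1]; exact_mod_cast hpr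
    have h3 : (p : ℤ) ∣ ((u * q : ℕ) : ℤ) := by exact_mod_cast hpm
    have h4 : (p : ℤ) ∣ σ * ((u : ℤ) * v0) + c := by
      have := Int.emod_add_mul_ediv (σ * ((u : ℤ) * v0) + c) ((u * q : ℕ) : ℤ)
      rw [← this]
      exact dvd_add h2 (Dvd.dvd.mul_right h3 _)
    have hRu : Rg 0 z (σ * ((u : ℤ) * v0) + c) := (Rg_class' hPP huu rfl).mpr hR
    by_cases hpz : p ≤ z
    · exact hRu p hp hp.pos hpz h4
    · rcases (hp.dvd_mul).mp hpm with h | h
      · have h5 : (p : ℤ) ∣ σ * ((u : ℤ) * v0) := Dvd.dvd.mul_left (Dvd.dvd.mul_right (by exact_mod_cast h) _) _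
        exact hgc p hp (by omega) h ((dvd_add_right h5).mp h4)
      · exact hpz (hqz p hp h)

/-- the partial sums -/
lemma part_u {σ c : ℤ} {z q u v0 B r N x : ℕ} (hσ : σ = 1 ∨ σ = -1) (hu : 1 ≤ u) (hq : 1 ≤ q) (hB : 1 ≤ B)
    (hPP : PP 0 z ∣ q) (hqz : ∀ p : ℕ, p.Prime → p ∣ q → p ≤ z)
    (hr : (r : ℤ) ≡ σ * ((u : ℤ) * v0) + c [ZMOD ((u * q : ℕ) : ℤ)])
    (hx : ∀ v : ℕ, 1 ≤ v → v ≤ N → σ * ((u : ℤ) * v) + c ≤ x) (Em : ℝ)
    (hEm : ∀ h, h ≤ x → |th h (u * q) r - (h : ℝ) / Nat.totient (u * q)| ≤ Em) (V : ℕ) (hV : V ≤ N) :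
    |∑ v ∈ Icc 1 V, (if v ≡ v0 [MOD q] then (if (B : ℤ) ≤ σ * ((u : ℤ) * v) + c then
      (N728.QL.lp (σ * ((u : ℤ) * v) + c) - (VW 0 z)⁻¹ * (1 + hh z u)) else 0) else 0)| ≤
      2 * (Em + (VW 0 z)⁻¹ * (1 + hh z u)) := by
  have hW := W_pos z
  have hh0 := hh_nonneg z u
  have hEm0 : 0 ≤ Em := (abs_nonneg _).trans (hEm 0 (Nat.zero_le _))
  have huz : (0 : ℤ) < u := by exact_mod_cast hu
  rcases Nat.eq_zero_or_pos V with hV0 | hV0
  · subst hV0
    rw [Finset.Icc_eq_empty (by omega), Finset.sum_empty, abs_zero]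
    positivity
  rw [← Finset.sum_filter]
  have e1 : ∑ v ∈ (Icc 1 V).filter (fun v => v ≡ v0 [MOD q]), (if (B : ℤ) ≤ σ * ((u : ℤ) * v) + c then
      (N728.QL.lp (σ * ((u : ℤ) * v) + c) - (VW 0 z)⁻¹ * (1 + hh z u)) else 0) =
      ∑ v ∈ (Icc 1 V).filter (fun v => v ≡ v0 [MOD q]), (if (B : ℤ) ≤ σ * ((u : ℤ) * v) + c then
      (fun n : ℕ => (if n.Prime then Real.log n else 0) -
        (VW 0 z)⁻¹ * (1 + hh z u)) (σ * ((u : ℤ) * v) + c).toNat else 0) := by
    apply Finset.sum_congr rfl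
    intro v _
    by_cases hb : (B : ℤ) ≤ σ * ((u : ℤ) * v) + c
    · rw [if_pos hb, if_pos hb]
      have e2 : ((((σ * ((u : ℤ) * v) + c).toNat : ℕ) : ℤ) : ℝ) = ((σ * ((u : ℤ) * v) + c : ℤ) : ℝ) := by
        rw [Int.toNat_of_nonneg (by omega)]
      rw [Int.cast_natCast] at e2
      simp only [N728.QL.lp]
      rw [e2]
    · rw [if_neg hb, if_neg hb]
  rw [e1]
  have key : ∃ lo hi : ℤ, (∀ v : ℤ, (1 ≤ v ∧ v ≤ V) ↔ (lo ≤ σ * ((u : ℤ) * v) + c ∧ σ * ((u : ℤ) * v) + c ≤ hi)) ∧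
      hi ≤ x := by
    rcases hσ with h | h
    · refine ⟨u + c, u * V + c, ?_, ?_⟩
      · intro v
        rw [h, one_mul]
        constructor
        · rintro ⟨h1, h2⟩
          constructor
          · have := mul_le_mul_of_nonneg_left h1 huz.le
            linarith
          · have := mul_le_mul_of_nonneg_left h2 huz.le
            linarith
        · rintro ⟨h1, h2⟩
          constructor
          · have h3 : (u : ℤ) * 1 ≤ u * v := by linarith
            exact le_of_mul_le_mul_left h3 huz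
          · have h3 : (u : ℤ) * v ≤ u * V := by linarith
            exact le_of_mul_le_mul_left h3 huz
      · have := hx V hV0 hV
        rw [h, one_mul] at this
        exact this
    · refine ⟨c - u * V, c - u, ?_, ?_⟩
      · intro v
        rw [h]
        constructor
        · rintro ⟨h1, h2⟩
          constructor
          · have := mul_le_mul_of_nonneg_left h2 huz.le
            linarith
          · have := mul_le_mul_of_nonneg_left h1 huz.le
            linarith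
        · rintro ⟨h1, h2⟩
          constructor
          · have h3 : (u : ℤ) * 1 ≤ u * v := by linarith
            exact le_of_mul_le_mul_left h3 huz
          · have h3 : (u : ℤ) * v ≤ u * V := by linarith
            exact le_of_mul_le_mul_left h3 huz
      · have := hx 1 le_rfl (by omega)
        rw [h] at this
        push_cast at this
        linarith
  obtain ⟨lo, hi, hH, hhi⟩ := key
  rw [bij hσ hu hB hH hr (fun n : ℕ => (if n.Prime then Real.log n else 0) - (VW 0 z)⁻¹ * (1 + hh z u))]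
  apply Icc_bound _ _ _ _ x
  · exact hB.trans (le_max_left _ _)
  · omega
  · positivity
  · intro y hy
    exact (F_bound hu hq hPP hqz y).trans (add_le_add (hEm y hy) le_rfl)

/-- a good value of `u` -/
lemma good_u {σ c : ℤ} {z q u u0 v0 B r N x : ℕ} (hσ : σ = 1 ∨ σ = -1) (hu : 1 ≤ u) (hq : 1 ≤ q) (hB : 1 ≤ B)
    (hPP : PP 0 z ∣ q) (hqz : ∀ p : ℕ, p.Prime → p ∣ q → p ≤ z)
    (huu : u ≡ u0 [MOD q]) (hR : Rg 0 z (σ * ((u0 : ℤ) * v0) + c))
    (hr : (r : ℤ) ≡ σ * ((u : ℤ) * v0) + c [ZMOD ((u * q : ℕ) : ℤ)])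
    (hx : ∀ v : ℕ, 1 ≤ v → v ≤ N → σ * ((u : ℤ) * v) + c ≤ x) (hN3 : ∀ v : ℕ, v ≤ N → u * v ≤ B ^ 3)
    (G : ℕ → ℝ) (hG : ∀ v, |G v| ≤ 1) (hG' : ∀ v, |G (v + 1) - G v| ≤ Real.log B / B) (Em : ℝ)
    (hEm : ∀ h, h ≤ x → |th h (u * q) r - (h : ℝ) / Nat.totient (u * q)| ≤ Em) :
    |∑ v ∈ (Icc 1 N).filter (fun v => v ≡ v0 [MOD q]), G v * EPu σ c z B (u * v)| ≤
      (1 + N * (Real.log B / B)) * (2 * (Em + (VW 0 z)⁻¹ * (1 + hh z u))) +
        (VW 0 z)⁻¹ * hh z u * (N / q + 1) := by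
  have hW := W_pos z
  have hh0 := hh_nonneg z u
  have hlog : 0 ≤ Real.log B := Real.log_natCast_nonneg B
  set W := (VW 0 z)⁻¹ with hWdef
  have h1 : ∑ v ∈ (Icc 1 N).filter (fun v => v ≡ v0 [MOD q]), G v * EPu σ c z B (u * v) =
      ∑ v ∈ Icc 1 N, G v * (if v ≡ v0 [MOD q] then (if (B : ℤ) ≤ σ * ((u : ℤ) * v) + c then
        (N728.QL.lp (σ * ((u : ℤ) * v) + c) - W * (1 + hh z u)) else 0) else 0) +
      ∑ v ∈ (Icc 1 N).filter (fun v => v ≡ v0 [MOD q]), G v * (if (B : ℤ) ≤ σ * ((u : ℤ) * v) + c then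
        W * hh z u else 0) := by
    rw [Finset.sum_filter, Finset.sum_filter, ← Finset.sum_add_distrib]
    apply Finset.sum_congr rfl
    intro v hv
    rw [Finset.mem_Icc] at hv
    by_cases hvq : v ≡ v0 [MOD q]
    · rw [if_pos hvq, if_pos hvq, if_pos hvq]
      unfold EPu
      have h4 : (((u * v : ℕ) : ℤ)) = (u : ℤ) * v := by push_cast; ring
      rw [h4]
      by_cases hb : (B : ℤ) ≤ σ * ((u : ℤ) * v) + c
      · rw [if_pos ⟨hb, hN3 v hv.2⟩, if_pos hb, if_pos hb]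
        unfold EE lz
        rw [if_pos ((Rg_class' hPP huu hvq).mpr hR)]
        ring
      · rw [if_neg (fun h => hb h.1), if_neg hb, if_neg hb]
        ring
    · rw [if_neg hvq, if_neg hvq, if_neg hvq]
      ring
  rw [h1]
  have h2 := abel G (fun v => (if v ≡ v0 [MOD q] then (if (B : ℤ) ≤ σ * ((u : ℤ) * v) + c then
      (N728.QL.lp (σ * ((u : ℤ) * v) + c) - W * (1 + hh z u)) else 0) else 0))
    N (Real.log B / B) (2 * (Em + W * (1 + hh z u))) (by positivity) hG hG'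
    (fun V hV => part_u hσ hu hq hB hPP hqz hr hx Em hEm V hV)
  have h4 : |∑ v ∈ (Icc 1 N).filter (fun v => v ≡ v0 [MOD q]), G v * (if (B : ℤ) ≤ σ * ((u : ℤ) * v) + c then
        W * hh z u else 0)| ≤ W * hh z u * (N / q + 1) := by
    calc |∑ v ∈ (Icc 1 N).filter (fun v => v ≡ v0 [MOD q]), G v * (if (B : ℤ) ≤ σ * ((u : ℤ) * v) + c then
        W * hh z u else 0)| ≤ ∑ v ∈ (Icc 1 N).filter (fun v => v ≡ v0 [MOD q]), |G v *
          (if (B : ℤ) ≤ σ * ((u : ℤ) * v) + c then W * hh z u else 0)| :=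
          Finset.abs_sum_le_sum_abs _ _
      _ ≤ ∑ v ∈ (Icc 1 N).filter (fun v => v ≡ v0 [MOD q]), W * hh z u := by
          apply Finset.sum_le_sum
          intro v _
          have h5 : 0 ≤ W * hh z u := by positivity
          rw [abs_mul]
          calc |G v| * |(if (B : ℤ) ≤ σ * ((u : ℤ) * v) + c then W * hh z u else 0)| ≤ 1 * (W * hh z u) := by
                apply mul_le_mul (hG v) _ (abs_nonneg _) zero_le_one
                split_ifs
                · rw [abs_of_nonneg h5]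
                · rw [abs_zero]; exact h5
            _ = _ := one_mul _
      _ = W * hh z u * (((Icc 1 N).filter (fun v => v ≡ v0 [MOD q])).card : ℝ) := by
          rw [Finset.sum_const, nsmul_eq_mul]
          ring
      _ ≤ W * hh z u * (N / q + 1) := by
          apply mul_le_mul_of_nonneg_left _ (by positivity)
          have := count_class hq N v0
          rw [abs_le] at this
          linarith
  exact (abs_add_le _ _).trans (add_le_add h2 h4)

/-- a bad value of `u` -/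
lemma bad_u {σ c : ℤ} {z q u v0 B N p : ℕ} (hq : 1 ≤ q) (hu1 : 1 ≤ u) (huB : u < B) (hp : p.Prime)
    (hpu : p ∣ u) (hpc : (p : ℤ) ∣ c) (G : ℕ → ℝ) (hG : ∀ v, |G v| ≤ 1) :
    |∑ v ∈ (Icc 1 N).filter (fun v => v ≡ v0 [MOD q]), G v * EPu σ c z B (u * v)| ≤
      (VW 0 z)⁻¹ * (N / q + 1) := by
  have hW := W_pos z
  set W := (VW 0 z)⁻¹ with hWdef
  calc |∑ v ∈ (Icc 1 N).filter (fun v => v ≡ v0 [MOD q]), G v * EPu σ c z B (u * v)|
      ≤ ∑ v ∈ (Icc 1 N).filter (fun v => v ≡ v0 [MOD q]), |G v * EPu σ c z B (u * v)| :=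
        Finset.abs_sum_le_sum_abs _ _
    _ ≤ ∑ v ∈ (Icc 1 N).filter (fun v => v ≡ v0 [MOD q]), W := by
        apply Finset.sum_le_sum
        intro v _
        rw [abs_mul]
        have h1 : |EPu σ c z B (u * v)| ≤ W := by
          unfold EPu
          split_ifs with hb
          · have h4 : (((u * v : ℕ) : ℤ)) = (u : ℤ) * v := by push_cast; ring
            rw [h4] at hb ⊢
            have hlp : N728.QL.lp (σ * ((u : ℤ) * v) + c) = 0 := by
              unfold N728.QL.lp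
              apply if_neg
              intro hpr
              have hd : (p : ℤ) ∣ σ * ((u : ℤ) * v) + c := by
                apply dvd_add _ hpc
                exact Dvd.dvd.mul_left (Dvd.dvd.mul_right (by exact_mod_cast hpu) _) _
              have e1 : (((σ * ((u : ℤ) * v) + c).toNat : ℕ) : ℤ) = σ * ((u : ℤ) * v) + c :=
                Int.toNat_of_nonneg (by omega)
              have hd' : p ∣ (σ * ((u : ℤ) * v) + c).toNat := by
                rw [← Int.natCast_dvd_natCast, e1]; exact hd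
              have hpe : p = (σ * ((u : ℤ) * v) + c).toNat := (Nat.prime_dvd_prime_iff_eq hp hpr).mp hd'
              have hpu' : p ≤ u := Nat.le_of_dvd hu1 hpu
              omega
            unfold EE
            rw [hlp, zero_sub, abs_neg, abs_of_nonneg (lz_nonneg z _)]
            exact lz_le z _
          · rw [abs_zero]; exact hW.le
        calc |G v| * |EPu σ c z B (u * v)| ≤ 1 * W := mul_le_mul (hG v) h1 (abs_nonneg _) zero_le_one
          _ = W := one_mul _
    _ = W * (((Icc 1 N).filter (fun v => v ≡ v0 [MOD q])).card : ℝ) := by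
        rw [Finset.sum_const, nsmul_eq_mul]
        ring
    _ ≤ W * (N / q + 1) := by
        apply mul_le_mul_of_nonneg_left _ hW.le
        have := count_class hq N v0
        rw [abs_le] at this
        linarith

/-- the class which is not coprime -/
lemma EPu_bad {σ c : ℤ} {z q u v u0 v0 B : ℕ} (hzB : z < B) (hPP : PP 0 z ∣ q)
    (hR : ¬ Rg 0 z (σ * ((u0 : ℤ) * v0) + c)) (hu : u ≡ u0 [MOD q]) (hv : v ≡ v0 [MOD q]) :
    EPu σ c z B (u * v) = 0 := by
  have hRn : ¬ Rg 0 z (σ * ((u : ℤ) * v) + c) := by rwa [Rg_class' hPP hu hv]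
  unfold EPu
  split_ifs with hb
  swap
  · rfl
  have h4 : (((u * v : ℕ) : ℤ)) = (u : ℤ) * v := by push_cast; ring
  rw [h4] at hb ⊢
  unfold EE lz
  rw [if_neg hRn, sub_zero]
  unfold N728.QL.lp
  apply if_neg
  intro hp
  have e1 : (((σ * ((u : ℤ) * v) + c).toNat : ℕ) : ℤ) = σ * ((u : ℤ) * v) + c := Int.toNat_of_nonneg (by omega)
  unfold Rg at hRn
  push Not at hRn
  obtain ⟨p, hpp, -, hpz, hd⟩ := hRn
  have hd' : p ∣ (σ * ((u : ℤ) * v) + c).toNat := by
    rw [← Int.natCast_dvd_natCast, e1]; exact hd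
  have hpe : p = (σ * ((u : ℤ) * v) + c).toNat := (Nat.prime_dvd_prime_iff_eq hpp hp).mp hd'
  omega

/-! ### The number of the bad values of `u` -/

/-- a class modulo `q` and a divisibility condition -/
lemma count_pq {q p u0 U1 U2 : ℕ} (hq : 1 ≤ q) (hp : p.Prime) (hpq : ¬ p ∣ q) (hU : U1 ≤ U2) :
    (((Ioc U1 U2).filter (fun u => u ≡ u0 [MOD q] ∧ p ∣ u)).card : ℝ) ≤ ((U2 : ℝ) - U1) / (p * q) + 2 := by
  have hcop : Nat.Coprime q p := ((Nat.Prime.coprime_iff_not_dvd hp).mpr hpq).symm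
  obtain ⟨k, hk1, hk2⟩ := Nat.chineseRemainder hcop u0 0
  have hpq0 : 1 ≤ q * p := Nat.mul_pos hq hp.pos
  have h1 : (Ioc U1 U2).filter (fun u => u ≡ u0 [MOD q] ∧ p ∣ u) ⊆
      (Ioc U1 U2).filter (fun u => u ≡ k [MOD (q * p)]) := by
    intro u hu
    rw [Finset.mem_filter] at hu ⊢
    refine ⟨hu.1, ?_⟩
    rw [← Nat.modEq_and_modEq_iff_modEq_mul hcop]
    exact ⟨hu.2.1.trans hk1.symm, (Nat.modEq_zero_iff_dvd.mpr hu.2.2).trans hk2.symm⟩
  have hI : (Icc 1 U2).filter (fun u => u ≡ k [MOD (q * p)]) =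
      (Icc 1 U1).filter (fun u => u ≡ k [MOD (q * p)]) ∪ (Ioc U1 U2).filter (fun u => u ≡ k [MOD (q * p)]) := by
    rw [← Finset.filter_union]
    congr 1
    ext n
    rw [Finset.mem_union, Finset.mem_Icc, Finset.mem_Icc, Finset.mem_Ioc]
    omega
  have hd : Disjoint ((Icc 1 U1).filter (fun u => u ≡ k [MOD (q * p)]))
      ((Ioc U1 U2).filter (fun u => u ≡ k [MOD (q * p)])) := by
    rw [Finset.disjoint_left]
    intro n hn hn'
    rw [Finset.mem_filter, Finset.mem_Icc] at hn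
    rw [Finset.mem_filter, Finset.mem_Ioc] at hn'
    omega
  have h2 := congrArg Finset.card hI
  rw [Finset.card_union_of_disjoint hd] at h2
  have h3 := count_class hpq0 U2 k
  have h4 := count_class hpq0 U1 k
  rw [h2] at h3
  have h5 : (((Ioc U1 U2).filter (fun u => u ≡ u0 [MOD q] ∧ p ∣ u)).card : ℝ) ≤
      (((Ioc U1 U2).filter (fun u => u ≡ k [MOD (q * p)])).card : ℝ) := by
    exact_mod_cast Finset.card_le_card h1
  have h6 : ((U2 : ℝ) - U1) / (p * q) = (U2 : ℝ) / ((q * p : ℕ) : ℝ) - (U1 : ℝ) / ((q * p : ℕ) : ℝ) := by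
    push_cast
    rw [sub_div, mul_comm (p : ℝ) q]
  rw [h6]
  rw [abs_le] at h3 h4
  push_cast at h3 h4 ⊢
  linarith [h3.2, h4.1]

lemma count_bad {c : ℤ} {z q u0 U1 U2 s0 : ℕ} (hc : Tame s0 c) (hs : s0 ≤ z) (hq : 1 ≤ q)
    (hqz : ∀ p : ℕ, p.Prime → p ∣ q → p ≤ z) (hU : U1 ≤ U2) (Bd : Finset ℕ)
    (hBd : ∀ u ∈ Bd, u ∈ Ioc U1 U2 ∧ u ≡ u0 [MOD q] ∧ ∃ p : ℕ, p.Prime ∧ z < p ∧ p ∣ u ∧ (p : ℤ) ∣ c) :
    (Bd.card : ℝ) ≤ ((U2 : ℝ) - U1) / q * (1 / √(z : ℝ)) + 2 * (c.natAbs.primeFactors.card : ℝ) := by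
  classical
  have hc0 : c ≠ 0 := hc.1
  have hU' : (0 : ℝ) ≤ (U2 : ℝ) - U1 := by
    have : (U1 : ℝ) ≤ U2 := by exact_mod_cast hU
    linarith
  have hq0 : (0 : ℝ) < q := by exact_mod_cast hq
  set P := c.natAbs.primeFactors.filter (fun p => z < p) with hP
  have h1 : Bd ⊆ P.biUnion (fun p => (Ioc U1 U2).filter (fun u => u ≡ u0 [MOD q] ∧ p ∣ u)) := by
    intro u hu
    obtain ⟨ha, hb, p, hp, hzp, hpu, hpc⟩ := hBd u hu
    rw [Finset.mem_biUnion]
    refine ⟨p, ?_, ?_⟩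
    · rw [hP, Finset.mem_filter, Nat.mem_primeFactors]
      exact ⟨⟨hp, Int.natCast_dvd.mp hpc, Int.natAbs_ne_zero.mpr hc0⟩, hzp⟩
    · rw [Finset.mem_filter]
      exact ⟨ha, hb, hpu⟩
  have h2 : Bd.card ≤ ∑ p ∈ P, ((Ioc U1 U2).filter (fun u => u ≡ u0 [MOD q] ∧ p ∣ u)).card :=
    (Finset.card_le_card h1).trans Finset.card_biUnion_le
  have h3 : (Bd.card : ℝ) ≤ ∑ p ∈ P, (((Ioc U1 U2).filter (fun u => u ≡ u0 [MOD q] ∧ p ∣ u)).card : ℝ) := by
    exact_mod_cast h2
  have h4 := hc.2 z hs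
  rw [← hP] at h4
  calc (Bd.card : ℝ) ≤ ∑ p ∈ P, (((Ioc U1 U2).filter (fun u => u ≡ u0 [MOD q] ∧ p ∣ u)).card : ℝ) := h3
    _ ≤ ∑ p ∈ P, (((U2 : ℝ) - U1) / q * (1 / (p : ℝ)) + 2) := by
        apply Finset.sum_le_sum
        intro p hp
        rw [hP, Finset.mem_filter] at hp
        have hpp := Nat.prime_of_mem_primeFactors hp.1
        have h5 := count_pq (u0 := u0) hq hpp (fun h => absurd (hqz p hpp h) (by omega)) hU
        have h6 : ((U2 : ℝ) - U1) / (p * q) = ((U2 : ℝ) - U1) / q * (1 / (p : ℝ)) := by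
          have : (0 : ℝ) < p := by exact_mod_cast hpp.pos
          field_simp
        rw [h6] at h5
        exact h5
    _ = ((U2 : ℝ) - U1) / q * (∑ p ∈ P, 1 / (p : ℝ)) + 2 * (P.card : ℝ) := by
        rw [Finset.sum_add_distrib, ← Finset.mul_sum, Finset.sum_const, nsmul_eq_mul]
        ring
    _ ≤ ((U2 : ℝ) - U1) / q * (1 / √(z : ℝ)) + 2 * (c.natAbs.primeFactors.card : ℝ) := by
        apply add_le_add
        · exact mul_le_mul_of_nonneg_left h4 (by positivity)
        · have : P.card ≤ c.natAbs.primeFactors.card := Finset.card_filter_le _ _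
          have h7 : (P.card : ℝ) ≤ (c.natAbs.primeFactors.card : ℝ) := by exact_mod_cast this
          linarith

lemma omega_le {n : ℕ} (hn : n ≠ 0) : (n.primeFactors.card : ℝ) * Real.log 2 ≤ Real.log n := by
  have h1 : (2 : ℝ) ^ n.primeFactors.card ≤ n := by
    have h2 : 2 ^ n.primeFactors.card ≤ n := by
      calc 2 ^ n.primeFactors.card = ∏ p ∈ n.primeFactors, 2 := by rw [Finset.prod_const]
        _ ≤ ∏ p ∈ n.primeFactors, p := by
            apply Finset.prod_le_prod'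
            intro p hp
            exact (Nat.prime_of_mem_primeFactors hp).two_le
        _ ≤ n := Nat.le_of_dvd (Nat.pos_of_ne_zero hn) (Nat.prod_primeFactors_dvd n)
    exact_mod_cast h2
  calc (n.primeFactors.card : ℝ) * Real.log 2 = Real.log ((2 : ℝ) ^ n.primeFactors.card) := by
        rw [Real.log_pow]
    _ ≤ Real.log n := Real.log_le_log (by positivity) h1

/-! ### The theorem -/

theorem t_B4Pu (h1 : Pool.Agent.N728.QL.S_BVH) (h2 : S_HZ) (_h3 : S_MER) (s0 : ℕ) : S_B4Pu s0 := by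
  classical
  obtain ⟨KV, X0, hBV⟩ := h1 5
  obtain ⟨KH, hKH, hHZ⟩ := h2
  refine ⟨KV + 1, KH + 1, by linarith, ?_⟩
  intro K D q z ε hK hD1 hq hz hs0 hε hPP hqz
  have hW : 0 < (VW 0 z)⁻¹ := W_pos z
  set W := (VW 0 z)⁻¹ with hWdef
  have hKr : (1 : ℝ) ≤ K := by exact_mod_cast hK
  have hK0 : (0 : ℝ) < K := by linarith
  set Ca : ℝ := 2 * (K + 1) * W + 4 * (K + 1) * W * KH + 2 * W * KH + 13 * W with hCa
  set Cb : ℝ := W * K * KH + 12 * D * W * K with hCb
  have hCa0 : 0 < Ca := by positivity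
  have hCb0 : 0 < Cb := by positivity
  obtain ⟨T0, hT0⟩ := Filter.eventually_atTop.mp (log_small (4 * Cb) ε hε)
  obtain ⟨B0, hB0⟩ := Filter.eventually_atTop.mp
    (((log_small (4 * Ca) ε hε).and ((log_large (q ^ 2 * 4 ^ KV)).and
      ((log_large (24 * K * (K + 1) / ε)).and ((log_large 1).and
        (Pool.Agent.N97.QG.log_sq_small 1 1 one_pos))))))
  refine ⟨max B0 (max X0 (max (T0 ^ D + 1) (z + 3 * K + 5))), ?_⟩
  intro B hB T c σ hc hσ hBT hTB hcB U1 U2 u0 v0 G hU hUT hG hG'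
  have hBB0 : B0 ≤ B := (le_max_left _ _).trans hB
  have hBX0 : X0 ≤ B := ((le_max_left _ _).trans (le_max_right _ _)).trans hB
  have hBT0 : T0 ^ D + 1 ≤ B :=
    (((le_max_left _ _).trans (le_max_right _ _)).trans (le_max_right _ _)).trans hB
  have hBz : z + 3 * K + 5 ≤ B :=
    (((le_max_right _ _).trans (le_max_right _ _)).trans (le_max_right _ _)).trans hB
  obtain ⟨b1, b2, b3, b4, b5⟩ := hB0 B hBB0
  rw [one_mul, one_mul] at b5
  have hTpos : 1 ≤ T := by
    rcases Nat.eq_zero_or_pos T with h | h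
    · subst h
      rw [zero_pow (by omega)] at hBT
      omega
    · exact h
  have hTT0 : T0 ≤ T := by
    by_contra hcon
    have : T ^ D ≤ T0 ^ D := Nat.pow_le_pow_left (by omega) D
    omega
  have hB0' : (0 : ℝ) < B := by exact_mod_cast (by omega : 0 < B)
  have hB1' : (1 : ℝ) ≤ B := by exact_mod_cast (by omega : 1 ≤ B)
  have hT1' : (1 : ℝ) ≤ T := by exact_mod_cast hTpos
  have hT0' : (0 : ℝ) < T := by linarith
  have hq0 : (0 : ℝ) < q := by exact_mod_cast hq
  have hq1 : (1 : ℝ) ≤ q := by exact_mod_cast hq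
  have hz0 : (0 : ℝ) < z := by exact_mod_cast (by omega : 0 < z)
  have hz1 : (1 : ℝ) ≤ z := by exact_mod_cast (by omega : 1 ≤ z)
  have hU' : (U1 : ℝ) ≤ U2 := by exact_mod_cast hU
  have hU2T : (U2 : ℝ) ≤ T := by exact_mod_cast hUT
  have hU1' : (0 : ℝ) ≤ U1 := Nat.cast_nonneg _
  have hUU : 0 ≤ (U2 : ℝ) - U1 := by linarith
  have hBT' : 0 < (B : ℝ) * T := mul_pos hB0' hT0'
  have hlT : 0 ≤ Real.log T := Real.log_natCast_nonneg T
  have hsz : 0 < √(z : ℝ) := Real.sqrt_pos.mpr hz0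
  have hmain0 : 0 ≤ (KH + 1) * K * W / √(z : ℝ) / (q : ℝ) ^ 2 * (B * ((U2 : ℝ) - U1)) := by positivity
  by_cases hR : Rg 0 z (σ * ((u0 : ℤ) * v0) + c)
  swap
  · have h0 : ∑ u ∈ (Ioc U1 U2).filter (fun u => u ≡ u0 [MOD q]),
        ∑ v ∈ (Icc 1 (K * B)).filter (fun v => v ≡ v0 [MOD q]), G v * EPu σ c z B (u * v) = 0 := by
      apply Finset.sum_eq_zero
      intro u hu
      apply Finset.sum_eq_zero
      intro v hv
      rw [EPu_bad (by omega) hPP hR (Finset.mem_filter.mp hu).2 (Finset.mem_filter.mp hv).2, mul_zero]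
    rw [h0, abs_zero]
    positivity
  -- the coprime class
  have hlogB0 : 0 ≤ Real.log B := by linarith
  have hL : 0 < Real.log B := by linarith
  have hTltB : T < B := by
    have h3 : (T : ℝ) * 1 < B := by
      have h4 : (1 : ℝ) < Real.log B ^ (KV + 1) ∨ (1 : ℝ) = Real.log B ^ (KV + 1) := lt_or_eq_of_le (one_le_pow₀ b4)
      rcases h4 with h4 | h4
      · exact (mul_lt_mul_of_pos_left h4 hT0').trans_le hTB
      · -- `log B = 1` is impossible as `B` is at least 5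
        exfalso
        have h5 : Real.log B = 1 := by
          by_contra hne
          have h6 : 1 < Real.log B := lt_of_le_of_ne b4 (Ne.symm hne)
          have h7 : 1 < Real.log B ^ (KV + 1) := one_lt_pow₀ h6 (by omega)
          linarith
        have h8 : Real.log 3 ≤ Real.log B := Real.log_le_log (by norm_num) (by exact_mod_cast (by omega : 3 ≤ B))
        have h9 : Real.exp 1 < 3 := by
          have := Real.exp_one_lt_d9
          linarith
        have h10 : 1 < Real.log 3 := by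
          rw [Real.lt_log_iff_exp_lt (by norm_num)]
          exact h9
        linarith
    rw [mul_one] at h3
    exact_mod_cast h3
  have hTleB : (T : ℝ) ≤ B := by exact_mod_cast hTltB.le
  set S := (Ioc U1 U2).filter (fun u => u ≡ u0 [MOD q]) with hS
  set S1 := S.filter (fun u => ∀ p : ℕ, p.Prime → z < p → p ∣ u → ¬ (p : ℤ) ∣ c) with hS1
  set S2 := S.filter (fun u => ¬ ∀ p : ℕ, p.Prime → z < p → p ∣ u → ¬ (p : ℤ) ∣ c) with hS2
  have hSmem : ∀ u ∈ S, 1 ≤ u ∧ u ≤ T ∧ u ≡ u0 [MOD q] := by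
    intro u hu
    rw [hS, Finset.mem_filter, Finset.mem_Ioc] at hu
    exact ⟨by omega, by omega, hu.2⟩
  have hS1mem : ∀ u ∈ S1, u ∈ S ∧ ∀ p : ℕ, p.Prime → z < p → p ∣ u → ¬ (p : ℤ) ∣ c := by
    intro u hu
    rw [hS1, Finset.mem_filter] at hu
    exact hu
  have hres : ∀ u : ℕ, ∃ r : ℕ, u ∈ S1 → ((r : ℤ) ≡ σ * ((u : ℤ) * v0) + c [ZMOD ((u * q : ℕ) : ℤ)] ∧
      Nat.Coprime r (u * q)) := by
    intro u
    by_cases hu : u ∈ S1
    · obtain ⟨hu', hg⟩ := hS1mem u hu
      obtain ⟨ha, hb, hd⟩ := hSmem u hu'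
      obtain ⟨r, hr⟩ := exists_res' ha hq hPP hqz hd hR hg
      exact ⟨r, fun _ => hr⟩
    · exact ⟨0, fun h => absurd h hu⟩
  choose R hRr using hres
  set L : ℕ := ⌈Real.log B ^ 2⌉₊ with hLdef
  set x : ℕ := K * B * T * (L + 1) with hx
  have hL1 : Real.log B ^ 2 ≤ L := Nat.le_ceil _
  have hL2 : (L : ℝ) ≤ Real.log B ^ 2 + 1 := (Nat.ceil_lt_add_one (sq_nonneg _)).le
  have hlog2 : 1 ≤ Real.log B ^ 2 := one_le_pow₀ b4
  have hmax : ∀ u : ℕ, ∃ V ∈ range (x + 1), ∀ V' ∈ range (x + 1),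
      |th V' (u * q) (R u) - (V' : ℝ) / Nat.totient (u * q)| ≤
      |th V (u * q) (R u) - (V : ℝ) / Nat.totient (u * q)| := by
    intro u
    exact Finset.exists_max_image (range (x + 1)) (fun V : ℕ =>
      |th V (u * q) (R u) - (V : ℝ) / Nat.totient (u * q)|) ⟨0, by simp⟩
  choose Vs hVs1 hVs2 using hmax
  set r' : ℕ → ℕ := fun m => if m / q ∈ S1 ∧ m / q * q = m then R (m / q) else 1 with hr'
  set h' : ℕ → ℕ := fun m => if m / q ∈ S1 ∧ m / q * q = m then Vs (m / q) else 0 with hh'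
  have hxB : B ≤ x := by
    rw [hx]
    calc B = 1 * B * 1 * 1 := by ring
      _ ≤ K * B * T * (L + 1) := Nat.mul_le_mul (Nat.mul_le_mul (Nat.mul_le_mul_right B hK) hTpos) (by omega)
  have hxreal : (x : ℝ) ≤ 3 * K * (B * T) * Real.log B ^ 2 := by
    rw [hx]
    push_cast
    have h3 : (L : ℝ) + 1 ≤ 3 * Real.log B ^ 2 := by linarith
    calc (K : ℝ) * B * T * (L + 1) ≤ K * B * T * (3 * Real.log B ^ 2) :=
          mul_le_mul_of_nonneg_left h3 (by positivity)
      _ = _ := by ring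
  have h4B : 3 * K * ((B : ℝ) * T) * Real.log B ^ 2 ≤ (B : ℝ) ^ 4 := by
    have h6 : 3 * (K : ℝ) ≤ B := by exact_mod_cast (by omega : 3 * K ≤ B)
    calc 3 * K * ((B : ℝ) * T) * Real.log B ^ 2 ≤ B * (B * B) * B := by
          apply mul_le_mul _ b5 (sq_nonneg _) (by positivity)
          apply mul_le_mul h6 _ hBT'.le hB0'.le
          exact mul_le_mul_of_nonneg_left hTleB hB0'.le
      _ = B ^ 4 := by ring
  have hx4 : Real.log x ≤ 4 * Real.log B := by
    have h7 : (0 : ℝ) < x := by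
      have : (B : ℝ) ≤ x := by exact_mod_cast hxB
      linarith
    calc Real.log x ≤ Real.log ((B : ℝ) ^ 4) := Real.log_le_log h7 (hxreal.trans h4B)
      _ = 4 * Real.log B := by rw [Real.log_pow]; norm_num
  have hxlow : Real.log B ≤ Real.log x := Real.log_le_log hB0' (by exact_mod_cast hxB)
  have hxBT : (B : ℝ) * T ≤ x := by
    have h3 : B * T ≤ x := by
      rw [hx]
      calc B * T = 1 * B * T * 1 := by ring
        _ ≤ K * B * T * (L + 1) := Nat.mul_le_mul (Nat.mul_le_mul_right T (Nat.mul_le_mul_right B hK)) (by omega)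
    exact_mod_cast h3
  have hD : ((T * q : ℕ) : ℝ) ^ 2 * Real.log x ^ KV ≤ x := by
    have h5 : Real.log x ^ KV ≤ (4 * Real.log B) ^ KV := pow_le_pow_left₀ (by linarith) hx4 KV
    calc ((T * q : ℕ) : ℝ) ^ 2 * Real.log x ^ KV ≤ ((T * q : ℕ) : ℝ) ^ 2 * (4 * Real.log B) ^ KV :=
          mul_le_mul_of_nonneg_left h5 (by positivity)
      _ = T * ((T * Real.log B ^ KV) * (q ^ 2 * 4 ^ KV)) := by push_cast; rw [mul_pow]; ring
      _ ≤ T * ((T * Real.log B ^ KV) * Real.log B) := by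
          apply mul_le_mul_of_nonneg_left _ hT0'.le
          apply mul_le_mul_of_nonneg_left b2
          positivity
      _ = T * (T * Real.log B ^ (KV + 1)) := by ring
      _ ≤ T * B := mul_le_mul_of_nonneg_left hTB hT0'.le
      _ ≤ x := by rw [mul_comm]; exact hxBT
  have hBVx := hBV x (hBX0.trans hxB) (T * q) hD r' h' (by
    intro m _
    simp only [hr']
    split_ifs with h
    · have h5 := (hRr (m / q) h.1).2
      rw [h.2] at h5
      exact h5
    · exact Nat.coprime_one_left m) (by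
    intro m
    simp only [hh']
    split_ifs with h
    · have h5 := hVs1 (m / q)
      rw [Finset.mem_range] at h5
      omega
    · exact Nat.zero_le _)
  -- the sum of the maximal errors
  set Em : ℕ → ℝ := fun u => |th (Vs u) (u * q) (R u) - (Vs u : ℝ) / Nat.totient (u * q)| with hEm
  have hEsum : ∑ u ∈ S1, Em u ≤ x / Real.log x ^ 5 := by
    refine le_trans ?_ hBVx
    have hinj : Set.InjOn (fun u : ℕ => u * q) (S1 : Set ℕ) := by
      intro a _ b _ hab
      exact Nat.eq_of_mul_eq_mul_right (by omega) hab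
    have hcong : ∑ u ∈ S1, Em u = ∑ m ∈ S1.image (fun u => u * q),
        |∑ p ∈ (Icc 1 (h' m)).filter (fun p => p.Prime ∧ p ≡ r' m [MOD m]), Real.log p -
          (h' m : ℝ) / Nat.totient m| := by
      rw [Finset.sum_image hinj]
      apply Finset.sum_congr rfl
      intro u hu
      have h5 : u * q / q = u := Nat.mul_div_cancel u (by omega)
      have h6 : r' (u * q) = R u := by
        simp only [hr', h5]
        rw [if_pos ⟨hu, trivial⟩]
      have h7 : h' (u * q) = Vs u := by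
        simp only [hh', h5]
        rw [if_pos ⟨hu, trivial⟩]
      rw [h6, h7]
      rfl
    rw [hcong]
    apply Finset.sum_le_sum_of_subset_of_nonneg
    · intro m hm
      rw [Finset.mem_image] at hm
      obtain ⟨u, hu, rfl⟩ := hm
      obtain ⟨ha, hb, -⟩ := hSmem u (hS1mem u hu).1
      rw [Finset.mem_Icc]
      exact ⟨Nat.mul_pos ha hq, Nat.mul_le_mul_right q hb⟩
    · intro _ _ _; exact abs_nonneg _
  -- the sum of `hh`
  have hHsum0 : ∑ u ∈ S, hh z u ≤ KH * (((U2 : ℝ) - U1) / (z * q) + Real.log T) := by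
    have hnn : 0 ≤ KH * (((U2 : ℝ) - U1) / (z * q) + Real.log T) := by positivity
    by_cases hU2 : 2 ≤ U2
    · refine (hHZ z q u0 U1 U2 hz hq hqz hU hU2).trans ?_
      apply mul_le_mul_of_nonneg_left _ hKH.le
      have : Real.log U2 ≤ Real.log T :=
        Real.log_le_log (by exact_mod_cast (by omega : 0 < U2)) (by exact_mod_cast hUT)
      linarith
    · have h5 : ∑ u ∈ S, hh z u = 0 := by
        apply Finset.sum_eq_zero
        intro u hu
        rw [hS, Finset.mem_filter, Finset.mem_Ioc] at hu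
        have : u = 1 := by omega
        rw [this, hh_one]
      rw [h5]; exact hnn
  have hHsum : ∑ u ∈ S1, hh z u ≤ KH * (((U2 : ℝ) - U1) / (z * q) + Real.log T) :=
    (Finset.sum_le_sum_of_subset_of_nonneg (Finset.filter_subset _ _) (fun u _ _ => hh_nonneg z u)).trans hHsum0
  have hHs0 : 0 ≤ ∑ u ∈ S1, hh z u := Finset.sum_nonneg (fun u _ => hh_nonneg z u)
  have hScard : (S1.card : ℝ) ≤ T := by
    have h5 : S1.card ≤ (Ioc U1 U2).card := (Finset.card_filter_le _ _).trans (Finset.card_filter_le _ _)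
    rw [Nat.card_Ioc] at h5
    exact_mod_cast (by omega : S1.card ≤ T)
  have hNB : ((K * B : ℕ) : ℝ) * (Real.log B / B) = K * Real.log B := by
    push_cast
    field_simp
  have hcx : ∀ u v : ℕ, u ≤ T → v ≤ K * B → σ * ((u : ℤ) * v) + c ≤ x := by
    intro u v hu hv
    have h3 : c.natAbs ≤ K * B * T * L := by
      have h4 : (c.natAbs : ℝ) ≤ ((K * B * T * L : ℕ) : ℝ) := by
        push_cast
        calc (c.natAbs : ℝ) ≤ K * ((B : ℝ) * T) * Real.log B ^ 2 := hcB
          _ ≤ K * ((B : ℝ) * T) * L := mul_le_mul_of_nonneg_left hL1 (by positivity)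
          _ = _ := by ring
      exact_mod_cast h4
    have h5 : u * v ≤ K * B * T := by
      calc u * v ≤ T * (K * B) := Nat.mul_le_mul hu hv
        _ = K * B * T := by ring
    have h6 : (x : ℤ) = ((K * B * T * L : ℕ) : ℤ) + ((K * B * T : ℕ) : ℤ) := by
      rw [hx]; push_cast; ring
    have h7 : σ * ((u : ℤ) * v) ≤ ((K * B * T : ℕ) : ℤ) := by
      have h8 : (0 : ℤ) ≤ (u : ℤ) * v := by positivity
      have h9 : (u : ℤ) * v ≤ ((K * B * T : ℕ) : ℤ) := by exact_mod_cast h5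
      rcases hσ with h | h
      · rw [h, one_mul]; exact h9
      · rw [h]; omega
    omega
  have hN3 : ∀ u v : ℕ, u ≤ T → v ≤ K * B → u * v ≤ B ^ 3 := by
    intro u v hu hv
    calc u * v ≤ T * (K * B) := Nat.mul_le_mul hu hv
      _ ≤ B * (B * B) := Nat.mul_le_mul hTltB.le (Nat.mul_le_mul_right B (by omega))
      _ = B ^ 3 := by ring
  -- the good values of `u`
  have hgood : |∑ u ∈ S1, ∑ v ∈ (Icc 1 (K * B)).filter (fun v => v ≡ v0 [MOD q]), G v * EPu σ c z B (u * v)| ≤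
      (1 + K * Real.log B) * (2 * (∑ u ∈ S1, Em u + W * (S1.card + ∑ u ∈ S1, hh z u))) +
        W * (K * B / q + 1) * ∑ u ∈ S1, hh z u := by
    calc |∑ u ∈ S1, ∑ v ∈ (Icc 1 (K * B)).filter (fun v => v ≡ v0 [MOD q]), G v * EPu σ c z B (u * v)|
        ≤ ∑ u ∈ S1, |∑ v ∈ (Icc 1 (K * B)).filter (fun v => v ≡ v0 [MOD q]), G v * EPu σ c z B (u * v)| :=
          Finset.abs_sum_le_sum_abs _ _
      _ ≤ ∑ u ∈ S1, ((1 + K * Real.log B) * (2 * (Em u + W * (1 + hh z u))) + W * hh z u * (K * B / q + 1)) := by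
          apply Finset.sum_le_sum
          intro u hu
          obtain ⟨ha, hb, hd⟩ := hSmem u (hS1mem u hu).1
          have h5 := good_u (N := K * B) (x := x) hσ ha hq (by omega) hPP hqz hd hR (hRr u hu).1
            (fun v _ hv => hcx u v hb hv) (fun v hv => hN3 u v hb hv) G hG hG' (Em u)
            (fun h hhx => hVs2 u h (Finset.mem_range.mpr (by omega)))
          rw [hNB] at h5
          push_cast at h5
          exact h5
      _ = _ := by
          rw [Finset.sum_add_distrib, ← Finset.mul_sum, ← Finset.mul_sum, Finset.sum_add_distrib,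
            ← Finset.mul_sum, Finset.sum_add_distrib, Finset.sum_const, nsmul_eq_mul, mul_one]
          congr 1
          rw [Finset.mul_sum (s := S1) (f := fun u => hh z u)]
          apply Finset.sum_congr rfl
          intro u _
          ring
  -- the bad values of `u`
  have hom : (c.natAbs.primeFactors.card : ℝ) ≤ 6 * Real.log B := by
    have hn : c.natAbs ≠ 0 := Int.natAbs_ne_zero.mpr hc.1
    have h3 := omega_le hn
    have h4 : (c.natAbs : ℝ) ≤ (B : ℝ) ^ 4 := by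
      refine hcB.trans (le_trans ?_ h4B)
      have h5 : 0 ≤ K * ((B : ℝ) * T) * Real.log B ^ 2 := by positivity
      linarith
    have h5 : Real.log (c.natAbs : ℝ) ≤ 4 * Real.log B := by
      calc Real.log (c.natAbs : ℝ) ≤ Real.log ((B : ℝ) ^ 4) :=
            Real.log_le_log (by exact_mod_cast Nat.pos_of_ne_zero hn) h4
        _ = 4 * Real.log B := by rw [Real.log_pow]; norm_num
    have h6 := Real.log_two_gt_d9
    have h7 : (0 : ℝ) ≤ (c.natAbs.primeFactors.card : ℝ) := Nat.cast_nonneg _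
    have h8 : (c.natAbs.primeFactors.card : ℝ) * (2 / 3) ≤ (c.natAbs.primeFactors.card : ℝ) * Real.log 2 :=
      mul_le_mul_of_nonneg_left (by linarith) h7
    linarith
  have hcard2 := count_bad (u0 := u0) hc hs0 hq hqz hU S2 (by
    intro u hu
    rw [hS2, Finset.mem_filter, hS, Finset.mem_filter] at hu
    refine ⟨hu.1.1, hu.1.2, ?_⟩
    have h3 := hu.2
    push Not at h3
    obtain ⟨p, hp, hzp, hpu, hpc⟩ := h3
    exact ⟨p, hp, hzp, hpu, hpc⟩)
  have hbad : |∑ u ∈ S2, ∑ v ∈ (Icc 1 (K * B)).filter (fun v => v ≡ v0 [MOD q]), G v * EPu σ c z B (u * v)| ≤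
      W * (K * B / q + 1) * S2.card := by
    calc |∑ u ∈ S2, ∑ v ∈ (Icc 1 (K * B)).filter (fun v => v ≡ v0 [MOD q]), G v * EPu σ c z B (u * v)|
        ≤ ∑ u ∈ S2, |∑ v ∈ (Icc 1 (K * B)).filter (fun v => v ≡ v0 [MOD q]), G v * EPu σ c z B (u * v)| :=
          Finset.abs_sum_le_sum_abs _ _
      _ ≤ ∑ u ∈ S2, W * (K * B / q + 1) := by
          apply Finset.sum_le_sum
          intro u hu
          rw [hS2, Finset.mem_filter] at hu
          obtain ⟨ha, hb, hd⟩ := hSmem u hu.1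
          have h3 := hu.2
          push Not at h3
          obtain ⟨p, hp, hzp, hpu, hpc⟩ := h3
          have h5 := bad_u (σ := σ) (z := z) (v0 := v0) (N := K * B) hq ha (lt_of_le_of_lt hb hTltB) hp hpu hpc G hG
          push_cast at h5
          exact h5
      _ = _ := by
          rw [Finset.sum_const, nsmul_eq_mul]
          ring
  have hsplit : ∑ u ∈ S, ∑ v ∈ (Icc 1 (K * B)).filter (fun v => v ≡ v0 [MOD q]), G v * EPu σ c z B (u * v) =
      ∑ u ∈ S1, ∑ v ∈ (Icc 1 (K * B)).filter (fun v => v ≡ v0 [MOD q]), G v * EPu σ c z B (u * v) +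
      ∑ u ∈ S2, ∑ v ∈ (Icc 1 (K * B)).filter (fun v => v ≡ v0 [MOD q]), G v * EPu σ c z B (u * v) :=
    (Finset.sum_filter_add_sum_filter_not _ _ _).symm
  rw [hsplit]
  refine (abs_add_le _ _).trans ((add_le_add hgood hbad).trans ?_)
  -- numerics
  have hKL : 1 + K * Real.log B ≤ (K + 1) * Real.log B := by linarith
  have hKL0 : 0 ≤ (K + 1) * Real.log B := by positivity
  have hlTT : Real.log T ≤ T := (Real.log_le_sub_one_of_pos hT0').trans (by linarith)
  have hlBT : Real.log B ≤ D * Real.log T := by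
    have : (B : ℝ) ≤ (T : ℝ) ^ D := by exact_mod_cast hBT
    calc Real.log B ≤ Real.log ((T : ℝ) ^ D) := Real.log_le_log hB0' this
      _ = D * Real.log T := by rw [Real.log_pow]
  have hUzq : ((U2 : ℝ) - U1) / (z * q) ≤ T := by
    calc ((U2 : ℝ) - U1) / (z * q) ≤ (U2 : ℝ) - U1 := div_le_self hUU (one_le_mul_of_one_le_of_one_le hz1 hq1)
      _ ≤ T := by linarith
  have hHs2T : ∑ u ∈ S1, hh z u ≤ 2 * KH * T := by
    refine hHsum.trans ?_
    calc KH * (((U2 : ℝ) - U1) / (z * q) + Real.log T) ≤ KH * (T + T) :=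
          mul_le_mul_of_nonneg_left (by linarith) hKH.le
      _ = 2 * KH * T := by ring
  have hlBT' : (T : ℝ) ≤ Real.log B * T := le_mul_of_one_le_left hT0'.le b4
  -- the errors in the theorem of Bombieri and Vinogradov
  have t1 : (1 + K * Real.log B) * (2 * ∑ u ∈ S1, Em u) ≤ ε / 4 * (B * T) := by
    have h5 : ∑ u ∈ S1, Em u ≤ 3 * K * (B * T) * Real.log B ^ 2 / Real.log B ^ 5 := by
      refine hEsum.trans ?_
      apply div_le_div₀ (by positivity) hxreal (by positivity)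
      exact pow_le_pow_left₀ hlogB0 hxlow 5
    have h6 : (1 + K * Real.log B) * (2 * ∑ u ∈ S1, Em u) ≤
        ((K + 1) * Real.log B) * (2 * (3 * K * (B * T) * Real.log B ^ 2 / Real.log B ^ 5)) := by
      apply mul_le_mul hKL (by linarith)
        (mul_nonneg (by norm_num) (Finset.sum_nonneg (fun u _ => abs_nonneg _))) (by positivity)
    have h7 : ((K + 1) * Real.log B) * (2 * (3 * K * (B * T) * Real.log B ^ 2 / Real.log B ^ 5)) =
        6 * K * (K + 1) * (B * T) / Real.log B ^ 2 := by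
      field_simp
      ring
    rw [h7] at h6
    refine h6.trans ?_
    rw [div_le_iff₀ (by positivity)]
    have h8 : 24 * K * ((K : ℝ) + 1) ≤ ε * Real.log B ^ 2 := by
      have h9 : 24 * K * ((K : ℝ) + 1) ≤ Real.log B * ε := by
        rwa [div_le_iff₀ hε] at b3
      calc 24 * K * ((K : ℝ) + 1) ≤ Real.log B * ε := h9
        _ ≤ Real.log B * ε * Real.log B := le_mul_of_one_le_right (by positivity) b4
        _ = ε * Real.log B ^ 2 := by ring
    calc 6 * K * ((K : ℝ) + 1) * ((B : ℝ) * T) = (24 * K * (K + 1)) * (B * T) / 4 := by ring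
      _ ≤ (ε * Real.log B ^ 2) * (B * T) / 4 := by
          have := mul_le_mul_of_nonneg_right h8 hBT'.le
          linarith
      _ = ε / 4 * (B * T) * Real.log B ^ 2 := by ring
  have t2 : (1 + K * Real.log B) * (2 * (W * (S1.card + ∑ u ∈ S1, hh z u))) ≤
      (2 * (K + 1) * W + 4 * (K + 1) * W * KH) * (Real.log B * T) := by
    calc (1 + K * Real.log B) * (2 * (W * (S1.card + ∑ u ∈ S1, hh z u)))
        ≤ ((K + 1) * Real.log B) * (2 * (W * (T + 2 * KH * T))) := by
          apply mul_le_mul hKL _ (by positivity) hKL0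
          apply mul_le_mul_of_nonneg_left _ (by norm_num)
          exact mul_le_mul_of_nonneg_left (by linarith) hW.le
      _ = _ := by ring
  have t3 : W * (K * B / q + 1) * ∑ u ∈ S1, hh z u ≤
      KH * K * W / √(z : ℝ) / (q : ℝ) ^ 2 * (B * ((U2 : ℝ) - U1)) + W * K * KH * (B * Real.log T) +
        2 * W * KH * (Real.log B * T) := by
    have h5 : W * (K * B / q + 1) * ∑ u ∈ S1, hh z u =
        W * (K * B / q) * ∑ u ∈ S1, hh z u + W * ∑ u ∈ S1, hh z u := by ring
    rw [h5]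
    apply add_le_add
    · calc W * (K * B / q) * ∑ u ∈ S1, hh z u
          ≤ W * (K * B / q) * (KH * (((U2 : ℝ) - U1) / (z * q) + Real.log T)) :=
            mul_le_mul_of_nonneg_left hHsum (by positivity)
        _ = KH * K * W / z / (q : ℝ) ^ 2 * (B * ((U2 : ℝ) - U1)) + (W * K * KH * (B * Real.log T)) / q := by
            field_simp
        _ ≤ KH * K * W / √(z : ℝ) / (q : ℝ) ^ 2 * (B * ((U2 : ℝ) - U1)) + W * K * KH * (B * Real.log T) := by
            apply add_le_add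
            · apply mul_le_mul_of_nonneg_right _ (by positivity)
              apply div_le_div_of_nonneg_right _ (by positivity)
              apply div_le_div_of_nonneg_left (by positivity) hsz
              rw [Real.sqrt_le_left hz0.le]
              nlinarith
            · exact div_le_self (by positivity) hq1
    · calc W * ∑ u ∈ S1, hh z u ≤ W * (2 * KH * T) := mul_le_mul_of_nonneg_left hHs2T hW.le
        _ = 2 * W * KH * T := by ring
        _ ≤ 2 * W * KH * (Real.log B * T) := mul_le_mul_of_nonneg_left hlBT' (by positivity)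
  have t4 : W * (K * B / q + 1) * S2.card ≤
      K * W / √(z : ℝ) / (q : ℝ) ^ 2 * (B * ((U2 : ℝ) - U1)) + 12 * D * W * K * (B * Real.log T) +
        13 * W * (Real.log B * T) := by
    have h5 : (S2.card : ℝ) ≤ ((U2 : ℝ) - U1) / q * (1 / √(z : ℝ)) + 12 * Real.log B := by linarith
    have h6 : W * (K * B / q + 1) * S2.card ≤
        W * (K * B / q + 1) * (((U2 : ℝ) - U1) / q * (1 / √(z : ℝ)) + 12 * Real.log B) :=
      mul_le_mul_of_nonneg_left h5 (by positivity)
    have h7 : W * (K * B / q + 1) * (((U2 : ℝ) - U1) / q * (1 / √(z : ℝ)) + 12 * Real.log B) =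
        K * W / √(z : ℝ) / (q : ℝ) ^ 2 * (B * ((U2 : ℝ) - U1)) + (12 * W * K * (B * Real.log B)) / q +
        W * (((U2 : ℝ) - U1) / q * (1 / √(z : ℝ))) + 12 * W * Real.log B := by
      field_simp
      ring
    rw [h7] at h6
    refine h6.trans ?_
    have h8 : (12 * W * K * (B * Real.log B)) / q ≤ 12 * D * W * K * (B * Real.log T) := by
      calc (12 * W * K * (B * Real.log B)) / q ≤ 12 * W * K * (B * Real.log B) :=
            div_le_self (by positivity) hq1
        _ ≤ 12 * W * K * (B * (D * Real.log T)) := by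
            apply mul_le_mul_of_nonneg_left _ (by positivity)
            exact mul_le_mul_of_nonneg_left hlBT hB0'.le
        _ = _ := by ring
    have h9 : W * (((U2 : ℝ) - U1) / q * (1 / √(z : ℝ))) ≤ W * (Real.log B * T) := by
      apply mul_le_mul_of_nonneg_left _ hW.le
      have h10 : 1 ≤ √(z : ℝ) := by
        rw [Real.one_le_sqrt]; exact hz1
      calc ((U2 : ℝ) - U1) / q * (1 / √(z : ℝ)) ≤ ((U2 : ℝ) - U1) * 1 := by
            apply mul_le_mul (div_le_self hUU hq1) _ (by positivity) hUU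
            rw [div_le_one hsz]; exact h10
        _ ≤ T := by linarith
        _ ≤ Real.log B * T := hlBT'
    have h11 : 12 * W * Real.log B ≤ 12 * W * (Real.log B * T) := by
      apply mul_le_mul_of_nonneg_left _ (by positivity)
      exact le_mul_of_one_le_right hlogB0 hT1'
    linarith
  have t5 : Ca * (Real.log B * T) ≤ ε / 4 * (B * T) := by
    calc Ca * (Real.log B * T) = (4 * Ca * Real.log B) / 4 * T := by ring
      _ ≤ (ε * B) / 4 * T := by
          apply mul_le_mul_of_nonneg_right _ hT0'.le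
          linarith
      _ = ε / 4 * (B * T) := by ring
  have t6 : Cb * (B * Real.log T) ≤ ε / 4 * (B * T) := by
    have h6 := hT0 T hTT0
    calc Cb * (B * Real.log T) = (4 * Cb * Real.log T) / 4 * B := by ring
      _ ≤ (ε * T) / 4 * B := by
          apply mul_le_mul_of_nonneg_right _ hB0'.le
          linarith
      _ = ε / 4 * (B * T) := by ring
  have hsum : (1 + K * Real.log B) * (2 * (∑ u ∈ S1, Em u + W * (S1.card + ∑ u ∈ S1, hh z u))) =
      (1 + K * Real.log B) * (2 * ∑ u ∈ S1, Em u) +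
      (1 + K * Real.log B) * (2 * (W * (S1.card + ∑ u ∈ S1, hh z u))) := by ring
  rw [hsum]
  have h11 : 0 < ε * ((B : ℝ) * T) := mul_pos hε hBT'
  have e1 : Ca * (Real.log B * T) = (2 * (K + 1) * W + 4 * (K + 1) * W * KH) * (Real.log B * T) +
      2 * W * KH * (Real.log B * T) + 13 * W * (Real.log B * T) := by rw [hCa]; ring
  have e2 : Cb * (B * Real.log T) = W * K * KH * (B * Real.log T) + 12 * D * W * K * (B * Real.log T) := by
    rw [hCb]; ring
  have e3 : (KH + 1) * K * W / √(z : ℝ) / (q : ℝ) ^ 2 * (B * ((U2 : ℝ) - U1)) =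
      KH * K * W / √(z : ℝ) / (q : ℝ) ^ 2 * (B * ((U2 : ℝ) - U1)) +
      K * W / √(z : ℝ) / (q : ℝ) ^ 2 * (B * ((U2 : ℝ) - U1)) := by ring
  rw [e3]
  linarith

end

end Pool.Agent.N61.QU
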